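import Pool.Agent.L0h17.SD.Osc3

/-!
The Green-Griffiths-Lang conjecture for surfaces with a rational map to projective space which is
ramified over osculating hyperplanes of a rational normal curve.
-/

set_option autoImplicit false

open FF Pool.Agent.W602.GT Pool.Agent.N155 Pool.Agent.L0h17.SD

namespace Pool.Agent.Results.MP_b9fedf_ag.OsculatingHyperplanes

/-- Let `X = {F = 0}` be a smooth projective surface with function field `K` all of whose
subvarieties, including `X`, are of general type, and let `(f 0 : ⋯ : f d)`, `d > 0`, be a rational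
map from `X` to `ℙ^d = Sym^d ℙ^1` whose image is not contained in an osculating hyperplane `H_c` of
the rational normal curve (`c ∈ ℂ` or `c = ∞`) and not in the discriminant hypersurface. Suppose that
it meets `q` osculating hyperplanes `H_(c i)` with multiplicities at least `N i`, where
`∑ i, (1 - 1 / N i) ≥ 2 * d`. Then `X` is Brody hyperbolic. -/
theorem result {n : ℕ} {ι : Type} (F : ι → MvPolynomial (Fin (n + 1)) ℂ) {K : Type} [Field K]
    [Algebra ℂ K] (y : Fin (n + 1) → K) (hX : SmoothSurface F y) (hgen : AllSubGeneral F)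
    {d : ℕ} (hd : 0 < d) (f : Fin (d + 1) → K) (hlast : f (Fin.last d) ≠ 0)
    (hroot : ∀ c : ℂ, oscForm f c ≠ 0) (hsep : (oscPoly f).Separable) {q : ℕ} (c : Fin q → ℂ)
    (hc : Function.Injective c) (N : Fin q → ℕ) (hN : ∀ i, 1 ≤ N i)
    (hsum : (2 * d : ℚ) ≤ ∑ i, (1 - 1 / (N i : ℚ))) (hmeet : ∀ i, MeetsWith f (c i) (N i)) :
    BrodyHyperbolic F :=
  hyp_of_osc hX hgen hd hlast hsep hroot hc hN hsum hmeet

end Pool.Agent.Results.MP_b9fedf_ag.OsculatingHyperplanes
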