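import Pool.Agent.L0h17.SD.Main

/-!
The Green-Griffiths-Lang conjecture for surfaces with twisted symmetric differentials on a finite,
possibly ramified, cover.
-/

set_option autoImplicit false

open FF Pool.Agent.W602.GT Pool.Agent.N155 Pool.Agent.L0h17.SD

namespace Pool.Agent.Results.MP_b9fedf_ag.TwistedDifferentialsOnCovers

/-- Let `X = {F = 0}` be a smooth projective surface with function field `K`, and let `M` be a
finite extension of `K` (the function field of a finite cover of `X`, which may be ramified).

(1) If `b` is a basis of `M` over `K` and `θ` is a symmetric differential of degree `m` on `M` such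
that all `b i ^ (2 m) * θ` are regular on the smooth projective models of `M`, then
`disc(b) ^ m * Norm(θ)` is a regular symmetric differential of degree `[M : K] * m` on `X`.

Suppose that all the subvarieties of `X`, including `X`, are of general type, and let `a` be a family
of elements of `M` which spans `M` over `K`.

(2) If the twisted regular symmetric differentials for `a` have no common zero, then `X` is Brody
hyperbolic.

(3) If some `h * df 1 ⋯ df d` with `h ≠ 0` and nonconstant `f l` in `M` is twisted regular for `a`,
then `X` is Brody hyperbolic.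

(4) If a regular symmetric differential of positive degree on `X` becomes over `M` a product
`h * df 1 ⋯ df d` with `h ≠ 0` and nonconstant `f l`, then `X` is Brody hyperbolic. -/
theorem result {n : ℕ} {ι : Type} (F : ι → MvPolynomial (Fin (n + 1)) ℂ) {K : Type} [Field K] [Algebra ℂ K]
    (y : Fin (n + 1) → K) (hX : SmoothSurface F y) (M : Type) [Field M] [Algebra ℂ M]
    [Algebra K M] [IsScalarTower ℂ K M] [FiniteDimensional K M] :
    (∀ (r : ℕ) (b : Module.Basis (Fin r) K M) (θ : SymD M), TwistedRegular b θ →
      ∃ σ : SymD K, σ.d = r * θ.d ∧ σ.Regular 2 ∧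
        ∀ (D : Derivation ℂ K K) (D' : Derivation ℂ M M), Lifts D D' →
          σ.app D = Algebra.discr K b ^ θ.d * Algebra.norm K (θ.app D')) ∧
    (AllSubGeneral F →
      (∀ (κ : Type) (a : κ → M), Submodule.span K (Set.range a) = ⊤ →
        (NoCommonZero a → BrodyHyperbolic F) ∧
        ∀ (d : ℕ) (h : M) (f : Fin d → M), h ≠ 0 → (∀ l, Transcendental ℂ (f l)) →
          TwistedRegular a (⟨d, 1, fun _ => h, fun _ => f⟩ : SymD M) → BrodyHyperbolic F) ∧
      ∀ σ : SymD K, 0 < σ.d → σ.Regular 2 → ∀ (d : ℕ) (h : M) (f : Fin d → M), h ≠ 0 →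
        (∀ l, Transcendental ℂ (f l)) → SplitsAs σ h f → BrodyHyperbolic F) :=
  ⟨fun _ b θ hθ => norm_sym hX b θ hθ, fun hgen =>
    ⟨fun _ a ha => ⟨fun h => hyp_of_cover hX hgen a ha h,
      fun _ _ _ hh hf hreg => hyp_of_prod_cover hX hgen a ha hh hf hreg⟩,
      fun _ hd hreg _ _ _ hh hf hσ => hyp_of_split hX hgen hd hreg hh hf hσ⟩⟩

end Pool.Agent.Results.MP_b9fedf_ag.TwistedDifferentialsOnCovers
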